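import Pool.Agent.K6.H45.DG.Main
import Pool.Agent.N646.RG.All

/-!
# Goldbach sums in three windows or prime pairs with differences in a window: assembly
-/

set_option autoImplicit false

namespace Pool.Agent.K6.H45.DG

open Finset Filter Topology
open Pool.Agent.N646.RG

theorem dicho (ε lam : ℝ) (hε : 0 < ε) (hlam : 0 < lam) :
    ∃ κ : ℝ, 0 < κ ∧ ∀ᶠ x : ℕ in atTop, ∀ L v : ℕ, lam * Real.log x ≤ L → L ≤ v → 8 * (v + L) ≤ x →
      (∀ u : ℕ, x ≤ u → u ≤ 2 * x → (5 / 27 - ε) * (L / 2) ≤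
        (((Ico u (u + L)).filter (fun w : ℕ =>
          Even w ∧ κ * (w / (Real.log w) ^ 2) ≤ (reps w : ℝ))).card : ℝ) +
        (((Ico (u + v) (u + v + L)).filter (fun w : ℕ =>
          Even w ∧ κ * (w / (Real.log w) ^ 2) ≤ (reps w : ℝ))).card : ℝ) +
        (((Ico (u - v) (u - v + L)).filter (fun w : ℕ =>
          Even w ∧ κ * (w / (Real.log w) ^ 2) ≤ (reps w : ℝ))).card : ℝ)) ∨
      (5 / 9 - ε) * (L / 2) ≤ (((Ico (v - L / 2) (v + L / 2)).filter (fun h : ℕ =>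
        Even h ∧ κ * (x / (Real.log x) ^ 2) ≤ (prs (3 * x) h : ℝ))).card : ℝ) := by
  have h := mainD (fun ε hε => clq (Pool.Agent.N591.RQ.main Pool.Agent.N595.RQ.main) (sHITM2 1) 4
    (by norm_num) ε hε) Pool.Agent.N123.RGPOL.main ε lam hε hlam
  simpa only using h

end Pool.Agent.K6.H45.DG
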