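import Pool.Agent.K6.H45.DG.NT

/-! The alternative for one pair of classes. -/

set_option autoImplicit false

namespace Pool.Agent.K6.H45.DG

open Finset Filter Topology
open Pool.Agent.N646.RG

open Classical in
/-- **the alternative for one class** -/
theorem altG2 {ε₁ κ : ℝ} (hκ : 0 < κ) {x u v L M T r N m : ℕ} (hM : 1 ≤ M)
    (hx : 1000 * M ≤ x) (hx3 : 3 ≤ x) (hux : x ≤ u) (hux2 : u ≤ 2 * x) (hN : N = 3 * u / 2) (hT1 : 1 ≤ T)
    (hTa : 2 * (M * T) + 4 * M ≤ L) (hLv : L ≤ v) (hLx : 8 * (v + L) ≤ x)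
    (hr : r < M) (hm : m ∈ Ico u (u + M)) (hr2 : 2 ∣ v + r) (hm2 : 2 ∣ m) (hM2 : 6 ∣ M)
    (h3 : 3 ∣ m ∨ 3 ∣ v + r)
    {P : Prop} (hcl : ∀ f : Fin 4 → ℤ × ℤ, (∀ i, ∀ t ≤ T, Afm N (sh (f i) (M * t))) →
      (∀ p : ℕ, p.Prime → p ∣ M → ∃ r : ℤ, ∀ i, ¬ (p : ℤ) ∣ (f i).1 * r + (f i).2) →
      ∃ A : Fin 4 → Finset ℕ, (∀ i, A i ⊆ range T) ∧
        (5 / 18 - ε₁ / 4) * ((4 : ℕ) * T) ≤ ((∑ i, (A i).card : ℕ) : ℝ) ∧
        ∀ i j, (((A i ×ˢ A j).filter (fun x => (i, x.1) ≠ (j, x.2) ∧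
          ¬ Gdf κ N ![sh (f i) (M * x.1), sh (f j) (M * x.2)])).card : ℝ) ≤ ε₁ / 4 * (T : ℝ) ^ 2)
    (hε₁ : 0 < ε₁)
    (hcomb : ∀ A₀ A₁ B₀ B₁ : Finset ℕ, A₀ ⊆ range T → A₁ ⊆ range T → B₀ ⊆ range T → B₁ ⊆ range T →
      (10 / 9 - ε₁) * T ≤ (A₀.card : ℝ) + A₁.card + B₀.card + B₁.card →
      (((A₀ ×ˢ B₀).filter (fun x => ¬ κ / 4 * (((m + M + M * (x.1 + x.2) : ℕ) : ℝ) /
        (Real.log ((m + M + M * (x.1 + x.2) : ℕ) : ℝ)) ^ 2) ≤
          (reps (m + M + M * (x.1 + x.2)) : ℝ))).card : ℝ) ≤ ε₁ * (T : ℝ) ^ 2 →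
      (((A₁ ×ˢ B₁).filter (fun x => ¬ κ / 4 * (((m + M + M * (x.1 + x.2) : ℕ) : ℝ) /
        (Real.log ((m + M + M * (x.1 + x.2) : ℕ) : ℝ)) ^ 2) ≤
          (reps (m + M + M * (x.1 + x.2)) : ℝ))).card : ℝ) ≤ ε₁ * (T : ℝ) ^ 2 →
      (((A₁ ×ˢ B₀).filter (fun x => ¬ κ / 4 * (((m + v + (M + r) + M * (x.1 + x.2) : ℕ) : ℝ) /
        (Real.log ((m + v + (M + r) + M * (x.1 + x.2) : ℕ) : ℝ)) ^ 2) ≤
          (reps (m + v + (M + r) + M * (x.1 + x.2)) : ℝ))).card : ℝ) ≤ ε₁ * (T : ℝ) ^ 2 →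
      (((A₀ ×ˢ B₁).filter (fun x => ¬ κ / 4 * (((m - v + (M - r) + M * (x.1 + x.2) : ℕ) : ℝ) /
        (Real.log ((m - v + (M - r) + M * (x.1 + x.2) : ℕ) : ℝ)) ^ 2) ≤
          (reps (m - v + (M - r) + M * (x.1 + x.2)) : ℝ))).card : ℝ) ≤ ε₁ * (T : ℝ) ^ 2 →
      (((A₀ ×ˢ A₁).filter (fun y => ¬ κ / 4 * ((x : ℝ) / (Real.log x) ^ 2) ≤
        (prs (3 * x) (v + r + M * (T - 1 - y.1 + y.2) - M * (T - 1)) : ℝ))).card : ℝ) ≤ ε₁ * (T : ℝ) ^ 2 →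
      (((B₁ ×ˢ B₀).filter (fun y => ¬ κ / 4 * ((x : ℝ) / (Real.log x) ^ 2) ≤
        (prs (3 * x) (v + r + M * (T - 1 - y.1 + y.2) - M * (T - 1)) : ℝ))).card : ℝ) ≤
          ε₁ * (T : ℝ) ^ 2 → P) : P := by
  have hm' := mem_Ico.1 hm
  have hMTx : 16 * (M * T) ≤ x := by omega
  have hμ : ((m + M : ℕ) : ℤ) = (m : ℤ) + M := by push_cast; ring
  have hvr : ((v + r : ℕ) : ℤ) = (v : ℤ) + r := by push_cast; ring
  obtain ⟨A, hA1, hA2, hA3⟩ := hcl (fG (m + M : ℕ) (v + r : ℕ))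
    (afmG (by omega) (by omega) (by omega)) (by
      intro p hp _
      obtain ⟨w, h1, h2, h4, h5⟩ := loc4 ((m + M : ℕ) : ℤ) ((v + r : ℕ) : ℤ)
        (by omega) (by omega) (by omega) p hp
      refine ⟨w, fun i => ?_⟩
      fin_cases i
      · simpa [fG] using h1
      · simpa [fG] using h2
      · simpa [fG] using h4
      · simpa [fG] using h5)
  -- sums
  have hE : ∀ (i j : Fin 4) (a b : ℤ) (c : ℕ), i ≠ j →
      (∀ t, sh (fG (m + M : ℕ) (v + r : ℕ) i) t = (1, a + t)) →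
      (∀ t, sh (fG (m + M : ℕ) (v + r : ℕ) j) t = (-1, b + t)) → (c : ℤ) = a + b →
      u ≤ c + v → c ≤ u + v + 3 * M →
      (((A i ×ˢ A j).filter (fun x => ¬ κ / 4 * (((c + M * (x.1 + x.2) : ℕ) : ℝ) /
        (Real.log ((c + M * (x.1 + x.2) : ℕ) : ℝ)) ^ 2) ≤
          (reps (c + M * (x.1 + x.2)) : ℝ))).card : ℝ) ≤ ε₁ * (T : ℝ) ^ 2 := by
    intro i j a b c hij ha hb hc hcM hcM2
    refine le_trans ?_ ((hA3 i j).trans (by nlinarith [sq_nonneg (T : ℝ)]))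
    rw [Nat.cast_le]
    apply card_le_card
    intro y hy
    obtain ⟨hy1, hy2⟩ := mem_filter.1 hy
    obtain ⟨hy3, hy4⟩ := mem_product.1 hy1
    have hy5 := mem_range.1 (hA1 i hy3)
    have hy6 := mem_range.1 (hA1 j hy4)
    refine mem_filter.2 ⟨hy1, fun h => hij (congrArg Prod.fst h), fun hG => hy2 ?_⟩
    rw [ha, hb] at hG
    have hb1 : M * (y.1 + y.2) ≤ M * (2 * T) := Nat.mul_le_mul_left _ (by omega)
    have hb2 : M * (2 * T) = 2 * (M * T) := by ring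
    have hsq : N ≤ (c + M * (y.1 + y.2)) ^ 2 := by
      have : 3 * (c + M * (y.1 + y.2)) ≤ (c + M * (y.1 + y.2)) ^ 2 := by
        rw [sq]
        exact Nat.mul_le_mul_right _ (by omega)
      omega
    refine (conv hκ (by omega) (by omega) hsq).trans (gdf_sum hG ?_)
    push_cast at hc ⊢
    linarith
  -- differences
  have hD : ∀ (i j : Fin 4) (σ a b : ℤ), i ≠ j → (σ = 1 ∨ σ = -1) →
      (∀ t, sh (fG (m + M : ℕ) (v + r : ℕ) i) t = (σ, a + t)) →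
      (∀ t, sh (fG (m + M : ℕ) (v + r : ℕ) j) t = (σ, b + t)) → b = a + (v + r : ℕ) →
      (∀ n ∈ IN N, σ * n + a + M * T ≤ ((3 * x : ℕ) : ℤ)) →
      (((A i ×ˢ A j).filter (fun y => ¬ κ / 4 * ((x : ℝ) / (Real.log x) ^ 2) ≤
        (prs (3 * x) (v + r + M * (T - 1 - y.1 + y.2) - M * (T - 1)) : ℝ))).card : ℝ) ≤
          ε₁ * (T : ℝ) ^ 2 := by
    intro i j σ a b hij hσ ha hb hab hY
    refine le_trans ?_ ((hA3 i j).trans (by nlinarith [sq_nonneg (T : ℝ)]))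
    rw [Nat.cast_le]
    apply card_le_card
    intro y hy
    obtain ⟨hy1, hy2⟩ := mem_filter.1 hy
    obtain ⟨hy3, hy4⟩ := mem_product.1 hy1
    have hy5 := mem_range.1 (hA1 i hy3)
    refine mem_filter.2 ⟨hy1, fun h => hij (congrArg Prod.fst h), fun hG => hy2 ?_⟩
    rw [ha, hb] at hG
    have hsq : N ≤ x ^ 2 := by
      have : 3 * x ≤ x ^ 2 := by
        rw [sq]
        exact Nat.mul_le_mul_right _ hx3
      omega
    have hMy : M * y.1 ≤ M * (T - 1) := Nat.mul_le_mul_left _ (by omega)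
    have hMT : M * (T - 1) ≤ M * T := Nat.mul_le_mul_left _ (by omega)
    have hidx : v + r + M * (T - 1 - y.1 + y.2) - M * (T - 1) + M * y.1 = v + r + M * y.2 := by
      have e1 : M * (T - 1 - y.1 + y.2) = M * (T - 1) - M * y.1 + M * y.2 := by
        rw [Nat.mul_add, Nat.mul_sub]
      rw [e1]
      omega
    refine (conv hκ hx3 (by omega) hsq).trans (gdf_dif hσ hG ?_ ?_)
    · rw [hab]
      have h9 : ((v + r + M * (T - 1 - y.1 + y.2) - M * (T - 1) : ℕ) : ℤ) + ((M * y.1 : ℕ) : ℤ) =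
          ((v + r + M * y.2 : ℕ) : ℤ) := by exact_mod_cast hidx
      push_cast at h9 ⊢
      linarith
    · intro n hn
      have h1 := hY n hn
      have h2 : ((M * y.1 : ℕ) : ℤ) ≤ M * T := by
        have : M * y.1 ≤ M * T := hMy.trans hMT
        exact_mod_cast this
      linarith
  refine hcomb (A 0) (A 1) (A 2) (A 3) (hA1 _) (hA1 _) (hA1 _) (hA1 _) ?_ ?_ ?_ ?_ ?_ ?_ ?_
  · rw [Fin.sum_univ_four] at hA2
    push_cast at hA2
    linarith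
  · exact hE 0 2 0 ((m + M : ℕ) : ℤ) (m + M) (by decide) (fun t => by rw [fG0, zero_add])
      (fun t => by rw [fG2]) (by push_cast; ring) (by omega) (by omega)
  · exact hE 1 3 ((v + r : ℕ) : ℤ) (((m + M : ℕ) : ℤ) - ((v + r : ℕ) : ℤ)) (m + M) (by decide)
      (fun t => by rw [fG1]) (fun t => by rw [fG3]) (by push_cast; ring) (by omega) (by omega)
  · exact hE 1 2 ((v + r : ℕ) : ℤ) ((m + M : ℕ) : ℤ) (m + v + (M + r)) (by decide)
      (fun t => by rw [fG1]) (fun t => by rw [fG2]) (by push_cast; ring) (by omega) (by omega)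
  · exact hE 0 3 0 (((m + M : ℕ) : ℤ) - ((v + r : ℕ) : ℤ)) (m - v + (M - r)) (by decide)
      (fun t => by rw [fG0, zero_add]) (fun t => by rw [fG3])
      (by
        have h1 : v ≤ m := by omega
        push_cast [hr.le, h1]
        ring) (by omega) (by omega)
  · refine hD 0 1 1 0 ((v + r : ℕ) : ℤ) (by decide) (Or.inl rfl) (fun t => by rw [fG0, zero_add])
      (fun t => by rw [fG1]) (by ring) ?_
    intro n hn
    unfold IN at hn
    have h1 := (mem_Icc.1 hn).2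
    have h2 : n + M * T ≤ 3 * x := by omega
    have h3 : ((n + M * T : ℕ) : ℤ) ≤ ((3 * x : ℕ) : ℤ) := by exact_mod_cast h2
    push_cast at h3 ⊢
    linarith
  · refine hD 3 2 (-1) (((m + M : ℕ) : ℤ) - ((v + r : ℕ) : ℤ)) ((m + M : ℕ) : ℤ) (by decide)
      (Or.inr rfl) (fun t => by rw [fG3]) (fun t => by rw [fG2]) (by ring) ?_
    intro n hn
    have h2 : m + M + M * T ≤ 3 * x := by omega
    have h3 : ((m + M + M * T : ℕ) : ℤ) ≤ ((3 * x : ℕ) : ℤ) := by exact_mod_cast h2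
    have h4 : (0 : ℤ) ≤ (n : ℤ) := Int.natCast_nonneg _
    have h5 : (0 : ℤ) ≤ ((v + r : ℕ) : ℤ) := Int.natCast_nonneg _
    push_cast at h3 h5 ⊢
    linarith

end Pool.Agent.K6.H45.DG
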