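import Pool.Agent.N646.RG.Cmb

/-! Four sets: sums of two pairs, differences of the two others. -/

set_option autoImplicit false

namespace Pool.Agent.K6.H45.DG

open Finset
open Pool.Agent.N646.RG

/-- the reflected set -/
def rfl' (T : ℕ) (A : Finset ℕ) : Finset ℕ := A.image (fun y => T - 1 - y)

theorem rfl'_sub {T : ℕ} (hT : 1 ≤ T) {A : Finset ℕ} : rfl' T A ⊆ range T := by
  intro z hz
  obtain ⟨y, _, rfl⟩ := mem_image.1 hz
  rw [mem_range]
  show T - 1 - y < T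
  omega

theorem rfl'_card {T : ℕ} {A : Finset ℕ} (hA : A ⊆ range T) : (rfl' T A).card = A.card := by
  apply card_image_of_injOn
  intro y hy z hz h
  have h1 := mem_range.1 (hA (mem_coe.1 hy))
  have h2 := mem_range.1 (hA (mem_coe.1 hz))
  have h3 : T - 1 - y = T - 1 - z := h
  omega

open Classical in
theorem rfl'_bad {T : ℕ} {A B : Finset ℕ} (hA : A ⊆ range T) (D : ℕ → Prop) {β : ℝ}
    (h : (((A ×ˢ B).filter (fun x => ¬ D (T - 1 - x.1 + x.2))).card : ℝ) ≤ β) :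
    (((rfl' T A ×ˢ B).filter (fun x => ¬ D (x.1 + x.2))).card : ℝ) ≤ β := by
  refine le_trans ?_ h
  rw [Nat.cast_le]
  have : (rfl' T A ×ˢ B).filter (fun x => ¬ D (x.1 + x.2)) ⊆
      ((A ×ˢ B).filter (fun x => ¬ D (T - 1 - x.1 + x.2))).image (fun x => (T - 1 - x.1, x.2)) := by
    rintro ⟨a, b⟩ hx
    obtain ⟨hx1, hx2⟩ := mem_filter.1 hx
    obtain ⟨hx3, hx4⟩ := mem_product.1 hx1
    obtain ⟨y, hy, hya⟩ := mem_image.1 hx3
    refine mem_image.2 ⟨(y, b), mem_filter.2 ⟨mem_product.2 ⟨hy, hx4⟩, ?_⟩, ?_⟩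
    · show ¬ D (T - 1 - y + b)
      rw [hya]
      exact hx2
    · show (T - 1 - y, b) = (a, b)
      rw [hya]
  exact (card_le_card this).trans card_image_le

open Classical in
/-- **the combinatorial lemma for four sets** -/
theorem comb2 (hPOL : S_POL) (ε : ℝ) (hε : 0 < ε) : ∃ ε₁ : ℝ, 0 < ε₁ ∧ ∃ T₀ : ℕ, 1 ≤ T₀ ∧ ∀ T : ℕ, T₀ ≤ T →
    ∀ A₀ A₁ B₀ B₁ : Finset ℕ, A₀ ⊆ range T → A₁ ⊆ range T → B₀ ⊆ range T → B₁ ⊆ range T →
    (10 / 9 - ε₁) * T ≤ (A₀.card : ℝ) + A₁.card + B₀.card + B₁.card →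
    ∀ E Ep Em D : ℕ → Prop,
    (((A₀ ×ˢ B₀).filter (fun x => ¬ E (x.1 + x.2))).card : ℝ) ≤ ε₁ * (T : ℝ) ^ 2 →
    (((A₁ ×ˢ B₁).filter (fun x => ¬ E (x.1 + x.2))).card : ℝ) ≤ ε₁ * (T : ℝ) ^ 2 →
    (((A₁ ×ˢ B₀).filter (fun x => ¬ Ep (x.1 + x.2))).card : ℝ) ≤ ε₁ * (T : ℝ) ^ 2 →
    (((A₀ ×ˢ B₁).filter (fun x => ¬ Em (x.1 + x.2))).card : ℝ) ≤ ε₁ * (T : ℝ) ^ 2 →
    (((A₀ ×ˢ A₁).filter (fun x => ¬ D (T - 1 - x.1 + x.2))).card : ℝ) ≤ ε₁ * (T : ℝ) ^ 2 →
    (((B₁ ×ˢ B₀).filter (fun x => ¬ D (T - 1 - x.1 + x.2))).card : ℝ) ≤ ε₁ * (T : ℝ) ^ 2 →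
    (10 / 9 - ε) * T ≤ (((range (2 * T)).filter D).card : ℝ) ∨
    (10 / 9 - ε) * T ≤ (((range (2 * T)).filter E).card : ℝ) + (((range (2 * T)).filter Ep).card : ℝ) +
      (((range (2 * T)).filter Em).card : ℝ) := by
  set η : ℝ := min (ε / 20) (1 / 1000) with hη
  have hη0 : 0 < η := lt_min (by positivity) (by norm_num)
  have hη1 : η ≤ ε / 20 := min_le_left _ _
  have hη2 : η ≤ 1 / 1000 := min_le_right _ _
  refine ⟨η ^ 2 / 100, by positivity, ⌈1 / η⌉₊, ?_, ?_⟩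
  · rw [Nat.one_le_ceil_iff]
    positivity
  intro T hT A₀ A₁ B₀ B₁ hA₀ hA₁ hB₀ hB₁ htot E Ep Em D h00 h11 h10 h01 hDA hDB
  have hT1 : 1 / η ≤ T := (Nat.le_ceil _).trans (by exact_mod_cast hT)
  have hT2 : 1 ≤ η * T := by
    rw [div_le_iff₀ hη0] at hT1
    linarith
  have hTp : (0 : ℝ) < T := by
    by_contra h
    push Not at h
    nlinarith
  have hT1' : 1 ≤ T := by exact_mod_cast hTp
  set s : ℕ := ⌈η * T⌉₊ with hs
  have hs1 : 1 ≤ s := by
    rw [hs, Nat.one_le_ceil_iff]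
    positivity
  have hs2 : η * T ≤ s := Nat.le_ceil _
  have hs3 : (s : ℝ) ≤ 2 * (η * T) := by
    have := Nat.ceil_lt_add_one (a := η * T) (by positivity)
    rw [← hs] at this
    linarith
  have hsp : (0 : ℝ) < s := by exact_mod_cast hs1
  set β : ℝ := η ^ 2 / 100 * (T : ℝ) ^ 2 with hβ
  have hβs : β / s ≤ η * T := by
    rw [div_le_iff₀ hsp, hβ]
    have h1 : (η * T) * (η * T) ≤ (η * T) * s := mul_le_mul_of_nonneg_left hs2 (by positivity)
    nlinarith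
  have hpop : ∀ A B : Finset ℕ, A ⊆ range T → B ⊆ range T → ∀ E' : ℕ → Prop,
      (((A ×ˢ B).filter (fun x => ¬ E' (x.1 + x.2))).card : ℝ) ≤ β → s ≤ A.card → s ≤ B.card →
      (A.card : ℝ) + B.card - 3 * (η * T) ≤ (((range (2 * T)).filter E').card : ℝ) := by
    intro A B hA hB E' hb hsA hsB
    have := popsum hPOL A B T s hA hB hs1 hsA hsB E' β hb
    linarith
  have hsm : ∀ A : Finset ℕ, ¬ s ≤ A.card → (A.card : ℝ) ≤ 2 * (η * T) := by
    intro A hA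
    have h1 : (A.card : ℝ) ≤ s := by exact_mod_cast (not_le.1 hA).le
    linarith
  have hDfin : ∀ A B : Finset ℕ, A ⊆ range T → B ⊆ range T →
      (((A ×ˢ B).filter (fun x => ¬ D (T - 1 - x.1 + x.2))).card : ℝ) ≤ β → s ≤ A.card → s ≤ B.card →
      (A.card : ℝ) + B.card - 3 * (η * T) ≤ (((range (2 * T)).filter D).card : ℝ) := by
    intro A B hA hB hb hsA hsB
    have h1 := hpop (rfl' T A) B (rfl'_sub hT1') hB D (rfl'_bad hA D hb)
      (by rw [rfl'_card hA]; exact hsA) hsB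
    rwa [rfl'_card hA] at h1
  have k00 := hpop A₀ B₀ hA₀ hB₀ E h00
  have k11 := hpop A₁ B₁ hA₁ hB₁ E h11
  have k10 := hpop A₁ B₀ hA₁ hB₀ Ep h10
  have k01 := hpop A₀ B₁ hA₀ hB₁ Em h01
  have kA := hDfin A₀ A₁ hA₀ hA₁ hDA
  have kB := hDfin B₁ B₀ hB₁ hB₀ hDB
  have hη20 : 20 * (η * T) ≤ ε * T := by nlinarith
  have hη21 : η ^ 2 / 100 * T ≤ η * T := by nlinarith
  have hE0 : (0 : ℝ) ≤ (((range (2 * T)).filter E).card : ℝ) := Nat.cast_nonneg _
  have hEp0 : (0 : ℝ) ≤ (((range (2 * T)).filter Ep).card : ℝ) := Nat.cast_nonneg _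
  have hEm0 : (0 : ℝ) ≤ (((range (2 * T)).filter Em).card : ℝ) := Nat.cast_nonneg _
  have a0 : (0 : ℝ) ≤ A₀.card := Nat.cast_nonneg _
  have a1 : (0 : ℝ) ≤ A₁.card := Nat.cast_nonneg _
  have b0 : (0 : ℝ) ≤ B₀.card := Nat.cast_nonneg _
  have b1 : (0 : ℝ) ≤ B₁.card := Nat.cast_nonneg _
  have cle : ∀ A : Finset ℕ, A ⊆ range T → (A.card : ℝ) ≤ T := by
    intro A hA
    have := card_le_card hA
    rw [card_range] at this
    exact_mod_cast this
  have c0 := cle A₀ hA₀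
  have c1 := cle A₁ hA₁
  have d0 := cle B₀ hB₀
  have d1 := cle B₁ hB₁
  have hηT : η * T ≤ 1 / 1000 * T := mul_le_mul_of_nonneg_right hη2 hTp.le
  by_cases cA0 : s ≤ A₀.card <;> by_cases cA1 : s ≤ A₁.card <;>
    by_cases cB0 : s ≤ B₀.card <;> by_cases cB1 : s ≤ B₁.card
  · right
    have := k01 cA0 cB1
    have := k10 cA1 cB0
    linarith
  · right
    have := k00 cA0 cB0
    have := k10 cA1 cB0
    have := hsm B₁ cB1
    linarith
  · right
    have := k01 cA0 cB1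
    have := k11 cA1 cB1
    have := hsm B₀ cB0
    linarith
  · left
    have := kA cA0 cA1
    have := hsm B₀ cB0
    have := hsm B₁ cB1
    linarith
  · right
    have := k00 cA0 cB0
    have := k01 cA0 cB1
    have := hsm A₁ cA1
    linarith
  · right
    have := k00 cA0 cB0
    have := hsm A₁ cA1
    have := hsm B₁ cB1
    linarith
  · right
    have := k01 cA0 cB1
    have := hsm A₁ cA1
    have := hsm B₀ cB0
    linarith
  · exfalso
    have := hsm A₁ cA1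
    have := hsm B₀ cB0
    have := hsm B₁ cB1
    linarith
  · right
    have := k10 cA1 cB0
    have := k11 cA1 cB1
    have := hsm A₀ cA0
    linarith
  · right
    have := k10 cA1 cB0
    have := hsm A₀ cA0
    have := hsm B₁ cB1
    linarith
  · right
    have := k11 cA1 cB1
    have := hsm A₀ cA0
    have := hsm B₀ cB0
    linarith
  · exfalso
    have := hsm A₀ cA0
    have := hsm B₀ cB0
    have := hsm B₁ cB1
    linarith
  · left
    have := kB cB1 cB0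
    have := hsm A₀ cA0
    have := hsm A₁ cA1
    linarith
  · exfalso
    have := hsm A₀ cA0
    have := hsm A₁ cA1
    have := hsm B₁ cB1
    linarith
  · exfalso
    have := hsm A₀ cA0
    have := hsm A₁ cA1
    have := hsm B₀ cB0
    linarith
  · exfalso
    have := hsm A₀ cA0
    have := hsm A₁ cA1
    have := hsm B₀ cB0
    have := hsm B₁ cB1
    linarith

end Pool.Agent.K6.H45.DG
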