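import Pool.Agent.N646.RG.Win

/-! Counting in three windows, class by class. -/

set_option autoImplicit false

namespace Pool.Agent.K6.H45.DG

open Finset
open Pool.Agent.N646.RG

open Classical in
/-- **the count in three windows** -/
theorem window3 (u v L M T r : ℕ) (hM : 0 < M) (h6 : 6 ∣ M) (hr : r < M) (hr2 : 2 ∣ v + r)
    (hvu : v ≤ u) (hL : 2 * (M * T) + 4 * M ≤ L) (Good : ℕ → Prop) (c : ℝ)
    (h : ∀ m ∈ Ico u (u + M), 2 ∣ m → (3 ∣ m ∨ 3 ∣ v + r) →
      c ≤ (((range (2 * T)).filter (fun s => Good (m + M + M * s))).card : ℝ) +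
        (((range (2 * T)).filter (fun s => Good (m + v + (M + r) + M * s))).card : ℝ) +
        (((range (2 * T)).filter (fun s => Good (m - v + (M - r) + M * s))).card : ℝ)) :
    (M : ℝ) / 6 * c ≤ (((Ico u (u + L)).filter (fun w => Even w ∧ Good w)).card : ℝ) +
      (((Ico (u + v) (u + v + L)).filter (fun w => Even w ∧ Good w)).card : ℝ) +
      (((Ico (u - v) (u - v + L)).filter (fun w => Even w ∧ Good w)).card : ℝ) := by
  obtain ⟨q, rfl⟩ := h6
  have hq : 0 < q := by omega
  have hMc : ((6 * q : ℕ) : ℝ) / 6 = q := by push_cast; ring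
  rw [hMc]
  set C : Finset ℕ := (Ico u (u + 6 * q)).filter (fun m => 6 ∣ m) with hC
  have hCs : C ⊆ Ico u (u + 6 * q) := filter_subset _ _
  have hCc : q ≤ C.card := by
    have h1 : (range q).image (fun i => 6 * ((u + 5) / 6 + i)) ⊆ C := by
      intro m hm
      obtain ⟨i, hi, rfl⟩ := mem_image.1 hm
      have := mem_range.1 hi
      rw [hC, mem_filter, mem_Ico]
      refine ⟨⟨?_, ?_⟩, Dvd.intro _ rfl⟩ <;> · show _; omega
    have h2 := card_le_card h1
    rwa [card_image_of_injective _ (fun a b hab => by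
      have : 6 * ((u + 5) / 6 + a) = 6 * ((u + 5) / 6 + b) := hab
      omega), card_range] at h2
  have e1 : ∑ m ∈ C, ((range (2 * T)).filter (fun s => Good (m + 6 * q + 6 * q * s))).card ≤
      ((Ico u (u + L)).filter (fun w => Even w ∧ Good w)).card := by
    refine win_inj u L (6 * q) T (6 * q) hM C hCs (by omega) hL Good (fun v => Even v ∧ Good v) ?_
    intro m hm s hs
    refine ⟨?_, hs⟩
    have h1 : 6 ∣ m := (mem_filter.1 hm).2
    rw [even_iff_two_dvd]
    have h2 : 2 ∣ 6 * q * s := Dvd.dvd.mul_right (Dvd.dvd.mul_right (by norm_num) q) s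
    omega
  have e2 : ∑ m ∈ C, ((range (2 * T)).filter (fun s => Good (m + v + (6 * q + r) + 6 * q * s))).card ≤
      ((Ico (u + v) (u + v + L)).filter (fun w => Even w ∧ Good w)).card := by
    have k1 := win_inj (u + v) L (6 * q) T (6 * q + r) hM (C.image (fun m => m + v)) (by
      intro z hz
      obtain ⟨m, hm, rfl⟩ := mem_image.1 hz
      have := mem_Ico.1 (hCs hm)
      rw [mem_Ico]
      show u + v ≤ m + v ∧ m + v < u + v + 6 * q
      omega) (by omega) hL Good (fun v => Even v ∧ Good v) (by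
      intro z hz s hs
      obtain ⟨m, hm, rfl⟩ := mem_image.1 hz
      refine ⟨?_, hs⟩
      have h1 : 6 ∣ m := (mem_filter.1 hm).2
      rw [even_iff_two_dvd]
      have h2 : 2 ∣ 6 * q * s := Dvd.dvd.mul_right (Dvd.dvd.mul_right (by norm_num) q) s
      omega)
    rw [sum_image (fun a _ b _ hab => by
      have : a + v = b + v := hab
      omega)] at k1
    exact k1
  have e3 : ∑ m ∈ C, ((range (2 * T)).filter (fun s => Good (m - v + (6 * q - r) + 6 * q * s))).card ≤
      ((Ico (u - v) (u - v + L)).filter (fun w => Even w ∧ Good w)).card := by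
    have k1 := win_inj (u - v) L (6 * q) T (6 * q - r) hM (C.image (fun m => m - v)) (by
      intro z hz
      obtain ⟨m, hm, rfl⟩ := mem_image.1 hz
      have := mem_Ico.1 (hCs hm)
      rw [mem_Ico]
      show u - v ≤ m - v ∧ m - v < u - v + 6 * q
      omega) (by omega) hL Good (fun v => Even v ∧ Good v) (by
      intro z hz s hs
      obtain ⟨m, hm, rfl⟩ := mem_image.1 hz
      refine ⟨?_, hs⟩
      have h1 : 6 ∣ m := (mem_filter.1 hm).2
      have := mem_Ico.1 (hCs hm)
      rw [even_iff_two_dvd]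
      have h2 : 2 ∣ 6 * q * s := Dvd.dvd.mul_right (Dvd.dvd.mul_right (by norm_num) q) s
      show 2 ∣ m - v + (6 * q - r) + 6 * q * s
      omega)
    rw [sum_image (fun a ha b hb hab => by
      have h1 := mem_Ico.1 (hCs ha)
      have h2 := mem_Ico.1 (hCs hb)
      have : a - v = b - v := hab
      omega)] at k1
    exact k1
  have hs : (C.card : ℝ) * c ≤ ∑ m ∈ C, ((((range (2 * T)).filter (fun s => Good (m + 6 * q + 6 * q * s))).card : ℝ) +
      (((range (2 * T)).filter (fun s => Good (m + v + (6 * q + r) + 6 * q * s))).card : ℝ) +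
      (((range (2 * T)).filter (fun s => Good (m - v + (6 * q - r) + 6 * q * s))).card : ℝ)) := by
    rw [← nsmul_eq_mul, ← sum_const]
    refine sum_le_sum fun m hm => ?_
    have h6m : 6 ∣ m := (mem_filter.1 hm).2
    exact h m (hCs hm) (by omega) (Or.inl (by omega))
  rw [sum_add_distrib, sum_add_distrib] at hs
  have e1' : (∑ m ∈ C, (((range (2 * T)).filter (fun s => Good (m + 6 * q + 6 * q * s))).card : ℝ)) ≤
      (((Ico u (u + L)).filter (fun w => Even w ∧ Good w)).card : ℝ) := by exact_mod_cast e1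
  have e2' : (∑ m ∈ C, (((range (2 * T)).filter
      (fun s => Good (m + v + (6 * q + r) + 6 * q * s))).card : ℝ)) ≤
      (((Ico (u + v) (u + v + L)).filter (fun w => Even w ∧ Good w)).card : ℝ) := by exact_mod_cast e2
  have e3' : (∑ m ∈ C, (((range (2 * T)).filter
      (fun s => Good (m - v + (6 * q - r) + 6 * q * s))).card : ℝ)) ≤
      (((Ico (u - v) (u - v + L)).filter (fun w => Even w ∧ Good w)).card : ℝ) := by exact_mod_cast e3
  rcases le_or_gt c 0 with hc | hc
  · have : (q : ℝ) * c ≤ 0 := mul_nonpos_of_nonneg_of_nonpos (Nat.cast_nonneg _) hc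
    refine this.trans ?_
    positivity
  have h4 : (q : ℝ) * c ≤ (C.card : ℝ) * c := by
    apply mul_le_mul_of_nonneg_right _ hc.le
    exact_mod_cast hCc
  linarith

/-- the count of the differences: the classes `v + r` modulo `M` -/
theorem winD (v L M T : ℕ) (hM : 0 < M) (h2M : 2 ∣ M) (hT : 1 ≤ T) (hL : 2 * (M * T) + 4 * M ≤ L)
    (hvL : L ≤ v) (P Q : ℕ → Prop) [DecidablePred P] [DecidablePred Q]
    (hPQ : ∀ w, Even w → P w → Q w) (c : ℝ)
    (h : ∀ r < M, 2 ∣ v + r → c ≤ (((range (2 * T)).filter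
      (fun s => P (v + r + M * s - M * (T - 1)))).card : ℝ)) :
    (M : ℝ) / 2 * c ≤ (((Ico (v - L / 2) (v + L / 2)).filter Q).card : ℝ) := by
  obtain ⟨q, rfl⟩ := h2M
  have hq : 0 < q := by omega
  have hMc : ((2 * q : ℕ) : ℝ) / 2 = q := by push_cast; ring
  rw [hMc]
  set R : Finset ℕ := (range (2 * q)).filter (fun r => 2 ∣ v + r) with hR
  have hRc : q ≤ R.card := by
    have h1 : (range q).image (fun i => 2 * i + v % 2) ⊆ R := by
      intro m hm
      obtain ⟨i, hi, rfl⟩ := mem_image.1 hm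
      have := mem_range.1 hi
      rw [hR, mem_filter, mem_range]
      refine ⟨?_, ?_⟩ <;> · show _; omega
    have h2 := card_le_card h1
    rwa [card_image_of_injective _ (fun a b hab => by
      have : 2 * a + v % 2 = 2 * b + v % 2 := hab
      omega), card_range] at h2
  have hMT : 2 * q * T = 2 * q * (T - 1) + 2 * q := by
    obtain ⟨T', rfl⟩ : ∃ T', T = T' + 1 := ⟨T - 1, by omega⟩
    rw [Nat.add_sub_cancel]
    ring
  have key : ∑ r ∈ R, ((range (2 * T)).filter
      (fun s => P (v + r + 2 * q * s - 2 * q * (T - 1)))).card ≤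
      ((Ico (v - L / 2) (v + L / 2)).filter Q).card := by
    rw [← card_sigma]
    apply card_le_card_of_injOn (fun z : (Σ _ : ℕ, ℕ) => v + z.1 + 2 * q * z.2 - 2 * q * (T - 1))
    · rintro ⟨r, s⟩ hz
      rw [mem_coe, mem_sigma] at hz
      obtain ⟨hm, hs⟩ := hz
      simp only [mem_filter] at hs
      obtain ⟨hs1, hs2⟩ := hs
      obtain ⟨hm1, hm2⟩ := mem_filter.1 hm
      have h1 := mem_range.1 hm1
      have h2 := mem_range.1 hs1
      have h3 : 2 * q * s + 2 * q ≤ 2 * (2 * q * T) := by
        have := Nat.mul_le_mul_left (2 * q) (show s + 1 ≤ 2 * T by omega)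
        have e : 2 * q * (s + 1) = 2 * q * s + 2 * q := by ring
        have e' : 2 * q * (2 * T) = 2 * (2 * q * T) := by ring
        omega
      simp only at h1 h2 hm2
      rw [mem_coe, mem_filter, mem_Ico]
      refine ⟨⟨?_, ?_⟩, hPQ _ ?_ hs2⟩
      · show v - L / 2 ≤ v + r + 2 * q * s - 2 * q * (T - 1)
        omega
      · show v + r + 2 * q * s - 2 * q * (T - 1) < v + L / 2
        omega
      · show Even (v + r + 2 * q * s - 2 * q * (T - 1))
        rw [even_iff_two_dvd]
        have h4 : 2 ∣ 2 * q * s := Dvd.dvd.mul_right (Dvd.intro _ rfl) s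
        have h5 : 2 ∣ 2 * q * (T - 1) := Dvd.dvd.mul_right (Dvd.intro _ rfl) _
        omega
    · rintro ⟨r, s⟩ hz ⟨r', s'⟩ hz' hh
      rw [mem_coe, mem_sigma] at hz hz'
      have h1 := mem_range.1 (mem_filter.1 hz.1).1
      have h1' := mem_range.1 (mem_filter.1 hz'.1).1
      simp only at hh h1 h1'
      have h2 : r + 2 * q * s = r' + 2 * q * s' := by omega
      have h4 : s = s' := by
        have e1 : (r + 2 * q * s) / (2 * q) = s := by
          rw [Nat.add_mul_div_left _ _ hM, Nat.div_eq_of_lt h1, zero_add]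
        have e2 : (r' + 2 * q * s') / (2 * q) = s' := by
          rw [Nat.add_mul_div_left _ _ hM, Nat.div_eq_of_lt h1', zero_add]
        rw [← e1, ← e2, h2]
      subst h4
      have h5 : r = r' := by omega
      subst h5
      rfl
  have hs : (R.card : ℝ) * c ≤ ∑ r ∈ R, (((range (2 * T)).filter
      (fun s => P (v + r + 2 * q * s - 2 * q * (T - 1)))).card : ℝ) := by
    rw [← nsmul_eq_mul, ← sum_const]
    refine sum_le_sum fun r hr => ?_
    obtain ⟨h1, h2⟩ := mem_filter.1 hr
    exact h r (mem_range.1 h1) h2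
  have e1 : (∑ r ∈ R, (((range (2 * T)).filter
      (fun s => P (v + r + 2 * q * s - 2 * q * (T - 1)))).card : ℝ)) ≤
      (((Ico (v - L / 2) (v + L / 2)).filter Q).card : ℝ) := by exact_mod_cast key
  rcases le_or_gt c 0 with hc | hc
  · have : (q : ℝ) * c ≤ 0 := mul_nonpos_of_nonneg_of_nonpos (Nat.cast_nonneg _) hc
    exact this.trans (Nat.cast_nonneg _)
  have h4 : (q : ℝ) * c ≤ (R.card : ℝ) * c := by
    apply mul_le_mul_of_nonneg_right _ hc.le
    exact_mod_cast hRc
  linarith

end Pool.Agent.K6.H45.DG
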